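import Pool.Agent.TFJ.Stmts

set_option autoImplicit false

/-! Row DSP of squad TFJ: the displacement lemma. -/

namespace Pool.Agent.TFJ.H36

open scoped BigOperators

theorem dsp (hsta : StaStmt) (hstb : StbStmt) (hnea : NeaStmt) : DspStmt := by
  intro E _ hyp φ hφ x N δ hN hδ
  have hN0 : (0 : ℝ) < N := by exact_mod_cast hN
  obtain ⟨f, hf⟩ : ∃ f : E → ℝ, ∀ u, f u = (∑ i ∈ Finset.range N, dist ((φ ^ i) x) u) / N :=
    ⟨_, fun _ => rfl⟩
  have hadm : Adm f := by
    intro u v
    rw [hf, hf, ← add_div, ← Finset.sum_add_distrib, le_div_iff₀ hN0]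
    calc dist u v * N = ∑ i ∈ Finset.range N, dist u v := by
          rw [Finset.sum_const, Finset.card_range, nsmul_eq_mul, mul_comm]
      _ ≤ ∑ i ∈ Finset.range N, (dist ((φ ^ i) x) u + dist ((φ ^ i) x) v) :=
          Finset.sum_le_sum fun i _ => by
            have h := dist_triangle u ((φ ^ i) x) v
            rw [dist_comm u ((φ ^ i) x)] at h
            exact h
  have hlip : ∀ u v, f u ≤ f v + dist v u := by
    intro u v
    rw [hf, hf, ← sub_le_iff_le_add', ← sub_div, ← Finset.sum_sub_distrib, div_le_iff₀ hN0]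
    calc ∑ i ∈ Finset.range N, (dist ((φ ^ i) x) u - dist ((φ ^ i) x) v)
        ≤ ∑ i ∈ Finset.range N, dist v u := Finset.sum_le_sum fun i _ => by
            have h := dist_triangle ((φ ^ i) x) v u
            linarith
      _ = dist v u * N := by
          rw [Finset.sum_const, Finset.card_range, nsmul_eq_mul, mul_comm]
  have hsymm : ∀ a b, dist (φ.symm a) (φ.symm b) = dist a b := by
    intro a b
    rw [← hφ (φ.symm a) (φ.symm b), Equiv.apply_symm_apply, Equiv.apply_symm_apply]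
  obtain ⟨g, hg⟩ : ∃ g : E → ℝ, g = fun u => f (φ.symm u) := ⟨_, rfl⟩
  have hgadm : Adm g := by
    intro u v
    have h := hadm (φ.symm u) (φ.symm v)
    rw [hsymm] at h
    rw [hg]
    exact h
  have hgform : ∀ u, g u = (∑ i ∈ Finset.range N, dist ((φ ^ (i + 1)) x) u) / N := by
    intro u
    rw [hg]
    show f (φ.symm u) = _
    rw [hf]
    have h : ∀ i ∈ Finset.range N, dist ((φ ^ i) x) (φ.symm u) = dist ((φ ^ (i + 1)) x) u := by
      intro i _
      rw [← hφ ((φ ^ i) x) (φ.symm u), Equiv.apply_symm_apply, pow_succ', Equiv.Perm.mul_apply]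
    rw [Finset.sum_congr rfl h]
  have hfg : ∀ u, |f u - g u| ≤ dist x ((φ ^ N) x) / N := by
    intro u
    have h1 : f u - g u = (dist x u - dist ((φ ^ N) x) u) / N := by
      rw [hf, hgform, ← sub_div, ← Finset.sum_sub_distrib,
        Finset.sum_range_sub' (fun i => dist ((φ ^ i) x) u)]
      simp
    rw [h1, abs_div, abs_of_pos hN0]
    apply div_le_div_of_nonneg_right _ hN0.le
    exact abs_dist_sub_le x ((φ ^ N) x) u
  have hC : ∀ u, f u - st f u ≤ 2 * f x := by
    intro u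
    have h1 := hlip u x
    have h2 := (hsta E f hadm).1 u x
    rw [dist_comm u x] at h2
    linarith
  obtain ⟨n, z, hz⟩ := hnea E hyp f (2 * f x) (δ / 2) hadm hC (by linarith)
  -- the iterates
  have key : ∀ m : ℕ, Adm (qq^[m] f) ∧ Adm (qq^[m] g) ∧
      (qq^[m] g = fun u => (qq^[m] f) (φ.symm u)) ∧
      ∀ u, |(qq^[m] f) u - (qq^[m] g) u| ≤ dist x ((φ ^ N) x) / N := by
    intro m
    induction m with
    | zero =>
      refine ⟨hadm, hgadm, hg, hfg⟩
    | succ m ih =>
      obtain ⟨i1, i2, i3, i4⟩ := ih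
      rw [Function.iterate_succ_apply', Function.iterate_succ_apply']
      refine ⟨(hsta E _ i1).2.2.1, (hsta E _ i2).2.2.1, ?_, hstb.1 E _ _ _ i1 i2 i4⟩
      rw [i3]
      exact hstb.2 E (qq^[m] f) φ.symm hsymm
  obtain ⟨-, -, k3, k4⟩ := key n
  refine ⟨z, ?_⟩
  have a1 := abs_le.1 (hz (φ z))
  have a2 := abs_le.1 (k4 (φ z))
  have a3 : (qq^[n] g) (φ z) = (qq^[n] f) z := by
    rw [k3]
    show (qq^[n] f) (φ.symm (φ z)) = _
    rw [Equiv.symm_apply_apply]
  have a4 := abs_le.1 (hz z)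
  rw [dist_self] at a4
  rw [a3] at a2
  linarith [a1.1, a1.2, a2.1, a2.2, a4.1, a4.2]

end Pool.Agent.TFJ.H36
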